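import Pool.Agent.helper23.F2.Spec

/-!
# Project F2 (MP_26dbae_co): row WK4
-/

set_option autoImplicit false

namespace Pool.Agent.F2

open Pool.Agent.helper23.TH

open Classical in
theorem WK4 (hGLU : Pool.Agent.helper23.TH.GLU_stmt) : WK4_stmt := by
  intro V _ A hA k c R
  obtain ⟨h1, h2, h3⟩ := hGLU V A hA k
  have sh : ∀ z : ZMod (2 * k + 2) → V, CWk A k z → ∀ d, CWk A k (fun i => z (d + i)) := by
    intro z hz d i
    have := hz (d + i)
    rw [add_assoc] at this
    exact this
  have e1 : ∀ z : ZMod (2 * k + 2) → V, (fun z : ZMod (2 * k + 2) → V =>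
      ((fun i : Fin (k + 2) => z (i.1 : ZMod (2 * k + 2))),
        (fun i : Fin (k + 2) => z (-(i.1 : ZMod (2 * k + 2)))))) (fun i => z (c + i)) = (fc c z, gc c z) := by
    intro z
    refine Prod.ext rfl ?_
    funext i
    show z (c + -(i.1 : ZMod (2 * k + 2))) = z (c - (i.1 : ZMod (2 * k + 2)))
    rw [sub_eq_add_neg]
  refine Finset.card_bij (fun z _ => (fc c z, gc c z)) ?_ ?_ ?_
  · intro z hz
    rw [Finset.mem_filter] at hz
    have := h1 (sh z hz.2.1 c)
    rw [e1] at this
    rw [Finset.mem_filter]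
    refine ⟨?_, hz.2.2⟩
    unfold PP
    rw [Finset.mem_filter]
    exact ⟨Finset.mem_univ _, this⟩
  · intro z hz w hw hzw
    rw [Finset.mem_filter] at hz hw
    have := h2 (sh z hz.2.1 c) (sh w hw.2.1 c) (by
      rw [e1, e1]
      exact hzw)
    funext i
    have := congrFun this (-c + i)
    simpa using this
  · intro q hq
    rw [Finset.mem_filter] at hq
    obtain ⟨hq1, hq2⟩ := hq
    unfold PP at hq1
    rw [Finset.mem_filter] at hq1
    obtain ⟨z, hz, hzq⟩ := h3 hq1.2
    have e2 : (fc c (fun i => z (-c + i)), gc c (fun i => z (-c + i))) = q := by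
      rw [← e1, ← hzq]
      simp only [neg_add_cancel_left]
    refine ⟨fun i => z (-c + i), ?_, e2⟩
    rw [Finset.mem_filter]
    refine ⟨Finset.mem_univ _, sh z hz (-c), ?_⟩
    have e3 := congrArg Prod.fst e2
    have e4 := congrArg Prod.snd e2
    simp only at e3 e4
    rw [e3, e4]
    exact hq2

end Pool.Agent.F2
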